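import Pool.Agent.Y976.SG.Stm

/-!
Project SG of helper976 (MP_aeebd3_an): second averaging (helper41). The integral of
`F(t,α) = cos α / sin α ^ 2 * (arcsin (vr (cos α) t) - cos α arcsin t)` over `[0, π/2]` is computed
by an explicit antiderivative.
-/

set_option autoImplicit false

namespace Pool.Agent.Y41.SG

open Set Filter Topology Pool.Agent.Y976.SG

/-- `arcsin (vr r t) = arctan (r tan θ)`, `t = sin θ` -/
theorem arcsin_vr (r t : ℝ) (ht : |t| < 1) :
    Real.arcsin (vr r t) = Real.arctan (r * (t / Real.sqrt (1 - t ^ 2))) := by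
  have ht2 : t ^ 2 < 1 := by
    rw [← sq_abs]
    have := abs_nonneg t
    nlinarith
  have h1 : 0 < 1 - t ^ 2 := by linarith
  have hs : 0 < Real.sqrt (1 - t ^ 2) := Real.sqrt_pos.mpr h1
  have hs2 : Real.sqrt (1 - t ^ 2) ^ 2 = 1 - t ^ 2 := Real.sq_sqrt h1.le
  have h2 : 0 < 1 - (1 - r ^ 2) * t ^ 2 := by nlinarith [sq_nonneg r, sq_nonneg t, sq_nonneg (r * t)]
  rw [Real.arctan_eq_arcsin]
  congr 1
  unfold vr
  have h3 : 1 + (r * (t / Real.sqrt (1 - t ^ 2))) ^ 2 = (1 - (1 - r ^ 2) * t ^ 2) / (1 - t ^ 2) := by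
    rw [mul_pow, div_pow, hs2]
    field_simp
    ring
  rw [h3, Real.sqrt_div h2.le]
  have h4 : 0 < Real.sqrt (1 - (1 - r ^ 2) * t ^ 2) := Real.sqrt_pos.mpr h2
  field_simp

/-- the antiderivative of `cos / (1 + cos)` -/
noncomputable def Ps (a : ℝ) : ℝ := a - Real.sin a / (1 + Real.cos a)

theorem one_add_cos_pos {a : ℝ} (h0 : 0 ≤ a) (h1 : a ≤ Real.pi / 2) : 0 < 1 + Real.cos a := by
  have : 0 ≤ Real.cos a := Real.cos_nonneg_of_neg_pi_div_two_le_of_le (by linarith [Real.pi_pos]) h1
  linarith

theorem Ps_deriv {a : ℝ} (h0 : 0 ≤ a) (h1 : a ≤ Real.pi / 2) :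
    HasDerivAt Ps (Real.cos a / (1 + Real.cos a)) a := by
  have hp := one_add_cos_pos h0 h1
  have h2 : HasDerivAt (fun a => 1 + Real.cos a) (-Real.sin a) a :=
    (Real.hasDerivAt_cos a).const_add 1
  have h3 := (hasDerivAt_id a).sub ((Real.hasDerivAt_sin a).div h2 hp.ne')
  refine h3.congr_deriv ?_
  have h4 := Real.sin_sq_add_cos_sq a
  field_simp
  nlinarith

theorem Ps_cont : ContinuousOn Ps (Icc 0 (Real.pi / 2)) := fun a ha =>
  (Ps_deriv ha.1 ha.2).continuousAt.continuousWithinAt

/-- The antiderivative of `F(t, ·)`. -/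
theorem anti (t : ℝ) (ht : |t| ≤ 1) : ∃ P : ℝ → ℝ, ContinuousOn P (Icc 0 (Real.pi / 2)) ∧
    P 0 = 0 ∧ P (Real.pi / 2) = Real.pi / 2 * (Real.arcsin t - t) ∧
    ∀ a ∈ Ioo 0 (Real.pi / 2), HasDerivAt P (Real.cos a / Real.sin a ^ 2 *
      (Real.arcsin (vr (Real.cos a) t) - Real.cos a * Real.arcsin t)) a := by
  have hpi := Real.pi_pos
  by_cases ht1 : |t| = 1
  · -- the case t = ± 1
    refine ⟨fun a => Real.arcsin t * Ps a, continuousOn_const.mul Ps_cont, ?_, ?_, ?_⟩
    · simp [Ps]
    · have h1 : Real.arcsin t = Real.pi / 2 * t := by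
        rcases abs_eq (zero_le_one) |>.mp ht1 with h | h
        · rw [h, Real.arcsin_one]; ring
        · rw [h, Real.arcsin_neg_one]; ring
      simp only [Ps, Real.sin_pi_div_two, Real.cos_pi_div_two, add_zero, div_one]
      rw [h1]
      ring
    · intro a ha
      have hc : 0 < Real.cos a := Real.cos_pos_of_mem_Ioo ⟨by linarith [ha.1], ha.2⟩
      have hs : 0 < Real.sin a := Real.sin_pos_of_pos_of_lt_pi ha.1 (by linarith [ha.2])
      have h1 : vr (Real.cos a) t = t := by
        unfold vr
        have : t ^ 2 = 1 := by rw [← sq_abs, ht1, one_pow]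
        rw [this, mul_one, sub_sub_cancel, Real.sqrt_sq hc.le]
        field_simp
      rw [h1]
      refine ((Ps_deriv ha.1.le ha.2.le).const_mul (Real.arcsin t)).congr_deriv ?_
      have h4 : Real.sin a ^ 2 = (1 - Real.cos a) * (1 + Real.cos a) := by
        have := Real.sin_sq_add_cos_sq a
        nlinarith
      have h5 := one_add_cos_pos ha.1.le ha.2.le
      have h6 : 0 < 1 - Real.cos a := by
        have h7 : 0 < (1 - Real.cos a) * (1 + Real.cos a) := by rw [← h4]; positivity
        by_contra hcon
        push Not at hcon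
        nlinarith
      rw [h4]
      field_simp
  · -- the case |t| < 1
    have ht' : |t| < 1 := lt_of_le_of_ne ht ht1
    have ht2 : t ^ 2 < 1 := by
      rw [← sq_abs]
      have := abs_nonneg t
      nlinarith
    set c : ℝ := Real.sqrt (1 - t ^ 2) with hc
    have hc0 : 0 < c := Real.sqrt_pos.mpr (by linarith)
    have hc2 : c ^ 2 = 1 - t ^ 2 := Real.sq_sqrt (by linarith)
    have hc1 : c ≤ 1 := by
      by_contra hcon
      push Not at hcon
      nlinarith [sq_nonneg t]
    set τ : ℝ := t / c with hτ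
    set θ : ℝ := Real.arcsin t with hθ
    have hAθ : Real.arctan τ = θ := by
      have h1 := arcsin_vr 1 t ht'
      rw [one_mul, ← hc, ← hτ] at h1
      rw [← h1, hθ]
      congr 1
      unfold vr
      norm_num
    -- the functions
    let A : ℝ → ℝ := fun a => Real.arctan (Real.cos a * τ)
    let Nf : ℝ → ℝ := fun a => A a - θ * Real.cos a
    let Bf : ℝ → ℝ := fun a => Real.arcsin (c * Real.sin a / Real.sqrt (1 - t ^ 2 * Real.sin a ^ 2))
    have hA : ∀ a, HasDerivAt A (1 / (1 + (Real.cos a * τ) ^ 2) * (-Real.sin a * τ)) a := fun a =>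
      ((Real.hasDerivAt_cos a).mul_const τ).arctan
    have hN : ∀ a, HasDerivAt Nf
        (1 / (1 + (Real.cos a * τ) ^ 2) * (-Real.sin a * τ) - θ * (-Real.sin a)) a := fun a =>
      (hA a).sub ((Real.hasDerivAt_cos a).const_mul θ)
    have hN0 : Nf 0 = 0 := by
      simp only [Nf, A, Real.cos_zero, one_mul, mul_one, hAθ, sub_self]
    have hden : ∀ a, 0 < 1 - t ^ 2 * Real.sin a ^ 2 := by
      intro a
      have h1 := Real.sin_sq_le_one a
      have h2 := sq_nonneg (Real.sin a)
      nlinarith [sq_nonneg t]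
    have hBc : Continuous Bf := by
      refine Real.continuous_arcsin.comp ?_
      refine Continuous.div (by fun_prop) (by fun_prop) fun a => ?_
      exact (Real.sqrt_pos.mpr (hden a)).ne'
    refine ⟨fun a => -(Nf a / Real.sin a) - t * Bf a + θ * a, ?_, ?_, ?_, ?_⟩
    · -- continuity
      have hq : ContinuousOn (fun a => Nf a / Real.sin a) (Icc 0 (Real.pi / 2)) := by
        intro a ha
        rcases eq_or_lt_of_le ha.1 with h0 | h0
        · subst h0
          have e1 : (fun a => Nf a / Real.sin a) =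
              fun a => dslope Nf 0 a / dslope Real.sin 0 a := by
            ext a
            by_cases ha0 : a = 0
            · subst ha0
              rw [dslope_same, dslope_same, hN0, (hN 0).deriv]
              simp
            · rw [dslope_of_ne _ ha0, dslope_of_ne _ ha0, slope_def_field, slope_def_field, hN0,
                Real.sin_zero, sub_zero, sub_zero, sub_zero]
              field_simp
          rw [e1]
          refine ContinuousAt.continuousWithinAt (ContinuousAt.div ?_ ?_ ?_)
          · exact continuousAt_dslope_same.mpr (hN 0).differentiableAt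
          · exact continuousAt_dslope_same.mpr (Real.hasDerivAt_sin 0).differentiableAt
          · rw [dslope_same, Real.deriv_sin, Real.cos_zero]
            exact one_ne_zero
        · have hs : 0 < Real.sin a := Real.sin_pos_of_pos_of_lt_pi h0 (by linarith [ha.2])
          exact ((hN a).continuousAt.div Real.continuous_sin.continuousAt hs.ne').continuousWithinAt
      exact (hq.neg.sub (continuousOn_const.mul hBc.continuousOn)).add (by fun_prop)
    · simp [Bf, hN0]
    · have h1 : Nf (Real.pi / 2) = 0 := by simp [Nf, A]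
      have h2 : Bf (Real.pi / 2) = Real.pi / 2 := by
        simp only [Bf, Real.sin_pi_div_two, mul_one, one_pow]
        rw [← hc, div_self hc0.ne', Real.arcsin_one]
      simp only [h1, h2]
      ring
    · intro a ha
      have hca : 0 < Real.cos a := Real.cos_pos_of_mem_Ioo ⟨by linarith [ha.1], ha.2⟩
      have hs : 0 < Real.sin a := Real.sin_pos_of_pos_of_lt_pi ha.1 (by linarith [ha.2])
      rw [arcsin_vr (Real.cos a) t ht', ← hc, ← hτ]
      -- the derivative of B
      have hB : HasDerivAt Bf (1 / (1 + (c * Real.tan a) ^ 2) * (c * (1 / Real.cos a ^ 2))) a := by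
        have h1 : HasDerivAt (fun a => Real.arctan (c * Real.tan a))
            (1 / (1 + (c * Real.tan a) ^ 2) * (c * (1 / Real.cos a ^ 2))) a :=
          ((Real.hasDerivAt_tan hca.ne').const_mul c).arctan
        refine h1.congr_of_eventuallyEq ?_
        have hnh : Ioo 0 (Real.pi / 2) ∈ 𝓝 a := isOpen_Ioo.mem_nhds ha
        filter_upwards [hnh] with b hb
        have hcb : 0 < Real.cos b := Real.cos_pos_of_mem_Ioo ⟨by linarith [hb.1], hb.2⟩
        have hsb : 0 < Real.sin b := Real.sin_pos_of_pos_of_lt_pi hb.1 (by linarith [hb.2])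
        have hsb1 : |Real.sin b| < 1 := by
          rw [abs_of_pos hsb]
          have := Real.sin_sq_add_cos_sq b
          nlinarith
        have h2 := arcsin_vr c (Real.sin b) hsb1
        have h3 : Real.sqrt (1 - Real.sin b ^ 2) = Real.cos b := by
          rw [← Real.cos_sq', Real.sqrt_sq hcb.le]
        rw [h3, ← Real.tan_eq_sin_div_cos] at h2
        rw [← h2]
        simp only [Bf, vr]
        rw [hc2, sub_sub_cancel]
      have hderiv := (((hN a).div (Real.hasDerivAt_sin a) hs.ne').neg.sub (hB.const_mul t)).add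
        ((hasDerivAt_id a).const_mul θ)
      refine hderiv.congr_deriv ?_
      have hD : 0 < c ^ 2 + t ^ 2 * Real.cos a ^ 2 := by positivity
      have h5 : Real.sin a ^ 2 = 1 - Real.cos a ^ 2 := Real.sin_sq a
      -- the two middle terms cancel
      have e1 : 1 / (1 + (Real.cos a * τ) ^ 2) * (-Real.sin a * τ)
          = -(Real.sin a * (t * c / (c ^ 2 + t ^ 2 * Real.cos a ^ 2))) := by
        rw [hτ]
        have : 1 + (Real.cos a * (t / c)) ^ 2 = (c ^ 2 + t ^ 2 * Real.cos a ^ 2) / c ^ 2 := by
          field_simp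
        rw [this]
        field_simp
      have e2 : 1 / (1 + (c * Real.tan a) ^ 2) * (c * (1 / Real.cos a ^ 2))
          = c / (c ^ 2 + t ^ 2 * Real.cos a ^ 2) := by
        rw [Real.tan_eq_sin_div_cos]
        have h6 : 1 + (c * (Real.sin a / Real.cos a)) ^ 2
            = (c ^ 2 + t ^ 2 * Real.cos a ^ 2) / Real.cos a ^ 2 := by
          rw [mul_pow, div_pow, h5]
          field_simp
          rw [hc2]
          ring
        rw [h6]
        field_simp
      rw [e1, e2]
      show _ = Real.cos a / Real.sin a ^ 2 * (Real.arctan (Real.cos a * τ) - Real.cos a * θ)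
      simp only [Nf, A]
      field_simp
      ring

theorem main : S_AV2 := by
  intro ι _ c t M ht h
  have hpi := Real.pi_pos
  choose P hP1 hP2 hP3 hP4 using fun i => anti (t i) (ht i)
  -- the bound on the sum of the derivatives
  have hbd : ∀ a ∈ Ioo 0 (Real.pi / 2), |∑ i, c i * (Real.cos a / Real.sin a ^ 2 *
      (Real.arcsin (vr (Real.cos a) (t i)) - Real.cos a * Real.arcsin (t i)))| ≤
      M * (Real.cos a / (1 + Real.cos a)) := by
    intro a ha
    have hca : 0 < Real.cos a := Real.cos_pos_of_mem_Ioo ⟨by linarith [ha.1], ha.2⟩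
    have hs : 0 < Real.sin a := Real.sin_pos_of_pos_of_lt_pi ha.1 (by linarith [ha.2])
    have h4 : Real.sin a ^ 2 = (1 - Real.cos a) * (1 + Real.cos a) := by
      have := Real.sin_sq_add_cos_sq a
      nlinarith
    have h5 := one_add_cos_pos ha.1.le ha.2.le
    have h6 : 0 < 1 - Real.cos a := by
      have h7 : 0 < (1 - Real.cos a) * (1 + Real.cos a) := by rw [← h4]; positivity
      by_contra hcon
      push Not at hcon
      nlinarith
    have h1 := h (Real.cos a) hca (by linarith)
    have e1 : ∑ i, c i * (Real.cos a / Real.sin a ^ 2 *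
        (Real.arcsin (vr (Real.cos a) (t i)) - Real.cos a * Real.arcsin (t i)))
        = Real.cos a / Real.sin a ^ 2 * ∑ i, c i *
          (Real.arcsin (vr (Real.cos a) (t i)) - Real.cos a * Real.arcsin (t i)) := by
      rw [Finset.mul_sum]
      refine Finset.sum_congr rfl fun i _ => ?_
      ring
    rw [e1, abs_mul, abs_of_pos (by positivity)]
    calc Real.cos a / Real.sin a ^ 2 * |∑ i, c i *
          (Real.arcsin (vr (Real.cos a) (t i)) - Real.cos a * Real.arcsin (t i))|
        ≤ Real.cos a / Real.sin a ^ 2 * ((1 - Real.cos a) * M) :=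
          mul_le_mul_of_nonneg_left h1 (by positivity)
      _ = M * (Real.cos a / (1 + Real.cos a)) := by
          rw [h4]
          field_simp
  have hG : ContinuousOn (fun a => ∑ i, c i * P i a) (Icc 0 (Real.pi / 2)) :=
    continuousOn_finsetSum _ fun i _ => continuousOn_const.mul (hP1 i)
  have hGd : ∀ a ∈ Ioo 0 (Real.pi / 2), HasDerivAt (fun a => ∑ i, c i * P i a)
      (∑ i, c i * (Real.cos a / Real.sin a ^ 2 *
        (Real.arcsin (vr (Real.cos a) (t i)) - Real.cos a * Real.arcsin (t i)))) a := by
    intro a ha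
    exact HasDerivAt.fun_sum (u := Finset.univ) fun i (_ : i ∈ Finset.univ) =>
      (hP4 i a ha).const_mul (c i)
  have hG0 : ∑ i, c i * P i 0 = 0 := by simp [hP2]
  have hG1 : ∑ i, c i * P i (Real.pi / 2)
      = Real.pi / 2 * ∑ i, c i * (Real.arcsin (t i) - t i) := by
    rw [Finset.mul_sum]
    refine Finset.sum_congr rfl fun i _ => ?_
    rw [hP3 i]
    ring
  have hP0 : Ps 0 = 0 := by simp [Ps]
  have hPe : Ps (Real.pi / 2) = Real.pi / 2 - 1 := by simp [Ps]
  -- monotonicity, for both signs
  have key : ∀ e : ℝ, |e| = 1 →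
      0 ≤ M * (Real.pi / 2 - 1) + e * (Real.pi / 2 * ∑ i, c i * (Real.arcsin (t i) - t i)) := by
    intro e he
    have hmono : MonotoneOn (fun a => M * Ps a + e * ∑ i, c i * P i a) (Icc 0 (Real.pi / 2)) := by
      have hd : ∀ a ∈ Ioo 0 (Real.pi / 2), HasDerivAt (fun a => M * Ps a + e * ∑ i, c i * P i a)
          (M * (Real.cos a / (1 + Real.cos a)) + e * ∑ i, c i * (Real.cos a / Real.sin a ^ 2 *
            (Real.arcsin (vr (Real.cos a) (t i)) - Real.cos a * Real.arcsin (t i)))) a :=
        fun a ha => ((Ps_deriv ha.1.le ha.2.le).const_mul M).add ((hGd a ha).const_mul e)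
      refine monotoneOn_of_deriv_nonneg (convex_Icc _ _)
        ((continuousOn_const.mul Ps_cont).add (continuousOn_const.mul hG)) ?_ ?_
      · rw [interior_Icc]
        exact fun a ha => (hd a ha).differentiableAt.differentiableWithinAt
      · rw [interior_Icc]
        intro a ha
        rw [(hd a ha).deriv]
        have h1 := hbd a ha
        have h2 : |e * ∑ i, c i * (Real.cos a / Real.sin a ^ 2 *
            (Real.arcsin (vr (Real.cos a) (t i)) - Real.cos a * Real.arcsin (t i)))| ≤
            M * (Real.cos a / (1 + Real.cos a)) := by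
          rw [abs_mul, he, one_mul]
          exact h1
        have h3 := neg_abs_le (e * ∑ i, c i * (Real.cos a / Real.sin a ^ 2 *
            (Real.arcsin (vr (Real.cos a) (t i)) - Real.cos a * Real.arcsin (t i))))
        linarith
    have h1 := hmono (left_mem_Icc.mpr (by linarith)) (right_mem_Icc.mpr (by linarith))
      (by linarith : (0:ℝ) ≤ Real.pi / 2)
    simp only [hP0, hG0, hPe, hG1, mul_zero, add_zero] at h1
    exact h1
  have k1 := key 1 (by norm_num)
  have k2 := key (-1) (by norm_num)
  set S : ℝ := ∑ i, c i * (Real.arcsin (t i) - t i) with hS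
  have hfin : ∀ x : ℝ, Real.pi / 2 * x ≤ M * (Real.pi / 2 - 1) → x ≤ (1 - 2 / Real.pi) * M := by
    intro x hx
    have h1 : x = 2 / Real.pi * (Real.pi / 2 * x) := by field_simp
    rw [h1]
    calc 2 / Real.pi * (Real.pi / 2 * x) ≤ 2 / Real.pi * (M * (Real.pi / 2 - 1)) :=
          mul_le_mul_of_nonneg_left hx (by positivity)
      _ = (1 - 2 / Real.pi) * M := by
          field_simp
  rw [abs_le]
  constructor
  · have := hfin (-S) (by linarith)
    linarith
  · exact hfin S (by linarith)

end Pool.Agent.Y41.SG
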